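import Pool.Agent.T9h22.Fin.Defs2
import Pool.Agent.T9h22.RS.Defs

/-!
# Forms as functions of derivations
-/

namespace Pool.Agent.T9h22.Fin

open KaehlerDifferential exteriorPower

section ev

variable (K : Type*) [Field K] {F : Type*} [Field F] [Algebra K F] {d : ℕ}

/-- The value of a form on derivations. -/
noncomputable def ev (D : Fin d → Derivation K F F) : ⋀[F]^d Ω[F⁄K] →ₗ[F] F :=
  pairingDual F Ω[F⁄K] d (ιMulti F d fun i => (D i).liftKaehlerDifferential)

theorem ev_ιMulti (D : Fin d → Derivation K F F) (x : Fin d → F) :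
    ev K D (ιMulti F d fun i => KaehlerDifferential.D K F (x i)) =
      (Matrix.of fun i j => D i (x j)).det := by
  rw [ev, pairingDual_ιMulti_ιMulti, ← Matrix.det_transpose]
  congr 1
  ext i j
  simp [Matrix.transpose_apply, Matrix.of_apply]

theorem ev_injective {ω : ⋀[F]^d Ω[F⁄K]} (h : ∀ D : Fin d → Derivation K F F, ev K D ω = 0) :
    ω = 0 := by
  classical
  let b := Module.Free.chooseBasis F Ω[F⁄K]
  let _ : LinearOrder (Module.Free.ChooseBasisIndex F Ω[F⁄K]) := linearOrderOfSTO WellOrderingRel
  apply (b.exteriorPower d).repr.injective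
  rw [map_zero]
  ext s
  rw [basis_repr_apply, ιMultiDual, ιMulti_family]
  have h1 := h fun i => (b.coord (Set.powersetCard.ofFinEmbEquiv.symm s i)).compDer
    (KaehlerDifferential.D K F)
  rw [ev] at h1
  have h2 : (fun i => Derivation.liftKaehlerDifferential
      ((b.coord (Set.powersetCard.ofFinEmbEquiv.symm s i)).compDer
        (KaehlerDifferential.D K F))) =
      b.coord ∘ (Set.powersetCard.ofFinEmbEquiv.symm s) := by
    funext i
    exact Derivation.liftKaehlerDifferential_unique _ _ (Derivation.liftKaehlerDifferential_comp _)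
  rw [h2] at h1
  rw [Finsupp.zero_apply]
  exact h1

theorem regOn_of_mem {V : Subring F} {ω : ⋀[F]^d Ω[F⁄K]} (h : ω ∈ RS.Reg K V d) :
    RegOn K (V : Set F) fun D => ev K D ω := by
  obtain ⟨m, f, g, rfl⟩ := (Submodule.mem_span_set').1 h
  choose x hx hg using fun k => (g k).2
  refine ⟨m, fun k => f k, x, fun k => (f k).2, fun k j => hx k j, fun D => ?_⟩
  beta_reduce
  rw [map_sum]
  refine Finset.sum_congr rfl fun k _ => ?_
  rw [hg k]
  show ev K D ((f k : F) • _) = _
  rw [map_smul, ev_ιMulti, smul_eq_mul]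

theorem exists_of_regOn {V : Subring F} {ω : (Fin d → Derivation K F F) → F}
    (h : RegOn K (V : Set F) ω) : ∃ η ∈ RS.Reg K V d, ∀ D, ω D = ev K D η := by
  obtain ⟨m, v, x, hv, hx, h⟩ := h
  refine ⟨∑ k, (⟨v k, hv k⟩ : V) • ιMulti F d (fun i => KaehlerDifferential.D K F (x k i)),
    Submodule.sum_mem _ fun k _ => Submodule.smul_mem _ _ (Submodule.subset_span ⟨x k, hx k, rfl⟩),
    fun D => ?_⟩
  rw [h D, map_sum]
  refine Finset.sum_congr rfl fun k _ => ?_
  show _ = ev K D (v k • _)
  rw [map_smul, ev_ιMulti, smul_eq_mul]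

end ev

section rational

variable {K : Type*} [Field K] {S : Type*} [CommRing S] [IsDomain S] [Algebra K S]

/-- From the exterior power form to the form with derivations. -/
theorem hasRationalSingularities_of (h : RS.HasRationalSingularities K S)
    (hex : ∃ p : Ideal S, p.IsPrime ∧ p.height = 1) : HasRationalSingularities K S := by
  refine ⟨h.normal, ?_⟩
  intro d hd ω hω V hV hVd
  obtain ⟨p₀, hp₀, hp₀1⟩ := hex
  obtain ⟨η, hη, hωη⟩ := exists_of_regOn K (V := RS.atPrime p₀) (hω p₀ hp₀ hp₀1)
  have key : η ∈ RS.Reg K V.toSubring d := by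
    refine h.kempf d hd η ?_ V hV hVd
    intro p hp hp1
    obtain ⟨η', hη', hωη'⟩ := exists_of_regOn K (V := RS.atPrime p) (hω p hp hp1)
    have : η = η' := by
      rw [← sub_eq_zero]
      apply ev_injective K
      intro D
      rw [map_sub, ← hωη D, ← hωη' D, sub_self]
    rw [this]
    exact hη'
  have h1 := regOn_of_mem K key
  have h2 : (fun D => ev K D η) = ω := by
    funext D
    exact (hωη D).symm
  rw [h2] at h1
  exact h1

end rational

end Pool.Agent.T9h22.Fin
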