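import Mathlib

/-!
# MP_954e53_ag.NegativeAnswer: the definitions of the statement, in a short form
-/

namespace Pool.Agent.T9h22.Fin

open MvPolynomial

section sections

variable {K : Type*} [Field K] {S : Type*} [CommRing S] [Algebra K S]

/-- `O(1)` is invertible on `X = Proj S`: every homogeneous prime `p` which does not contain all
elements of positive degree (a point of `X`) has `Sₙ ⊄ p` and `Sₙ₊₁ ⊄ p` for some `n` (so there is a
unit of degree one at the point). -/
def IsInvertible (𝒜 : ℕ → Submodule K S) [GradedAlgebra 𝒜] : Prop :=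
  ∀ p : Ideal S, p.IsPrime → p.IsHomogeneous 𝒜 → (∃ i > 0, ∃ x ∈ 𝒜 i, x ∉ p) →
    ∃ n, (∃ x ∈ 𝒜 n, x ∉ p) ∧ ∃ y ∈ 𝒜 (n + 1), y ∉ p

/-- `Sₙ = H⁰(X, O(n))`: every fraction `a / b` of degree `n` which is regular on `X = Proj S` (for
each homogeneous `x` of positive degree some `xᵐ a / b` lies in `S`) lies in `S`. -/
def IsSaturated (𝒜 : ℕ → Submodule K S) : Prop :=
  ∀ n j, ∀ a ∈ 𝒜 (j + n), ∀ b ∈ 𝒜 j, b ≠ 0 →
    (∀ i > 0, ∀ x ∈ 𝒜 i, ∃ m, b ∣ x ^ m * a) → b ∣ a

/-- `S` is the section ring `⊕ H⁰(X, Lⁿ)` of an ample invertible sheaf `L` on a projective variety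
`X` over the algebraically closed field `K`, in terms of `S`: `S` is a graded domain of finite type
with `S₀ = K`, `L = O(1)` is invertible on `X = Proj S`, and `Sₙ = H⁰(X, O(n))`. -/
structure IsSectionRing (𝒜 : ℕ → Submodule K S) [GradedAlgebra 𝒜] : Prop where
  isDomain : IsDomain S
  finiteType : Algebra.FiniteType K S
  zero : ∀ s ∈ 𝒜 0, ∃ c : K, algebraMap K S c = s
  invertible : IsInvertible 𝒜
  saturated : IsSaturated 𝒜

end sections

section rational

/-- A form of degree `d` on `F / K`, given as a function `ω` of `d` derivations of `F` over `K`,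
is regular on `V ⊆ F`: it is a finite sum of forms `v dx_1 ∧ ⋯ ∧ dx_d` with `v, x_1, …, x_d ∈ V`,
where `(v dx_1 ∧ ⋯ ∧ dx_d) (D_1, …, D_d) = v det (D_i x_j)`. -/
def RegOn (K : Type*) [Field K] {F : Type*} [Field F] [Algebra K F] (V : Set F) {d : ℕ}
    (ω : (Fin d → Derivation K F F) → F) : Prop :=
  ∃ (m : ℕ) (v : Fin m → F) (x : Fin m → Fin d → F), (∀ k, v k ∈ V) ∧ (∀ k j, x k j ∈ V) ∧
    ∀ D : Fin d → Derivation K F F, ω D = ∑ k, v k * (Matrix.of fun i j => D i (x k j)).det

variable {S : Type*} [CommRing S] [IsDomain S]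

/-- The local ring `S_p`, as a set of elements of the fraction field. -/
def localAt (p : Ideal S) : Set (FractionRing S) :=
  {x | ∃ a s : S, s ∉ p ∧
    x * algebraMap S (FractionRing S) s = algebraMap S (FractionRing S) a}

/-- `S` has rational singularities, for a Cohen-Macaulay domain `S` of finite type over a field `K`
of characteristic `0`, in the form of Kempf's criterion (`f_* ω_Y = ω_S` for the resolutions
`f : Y → Spec S`): `S` is normal, and every rational differential form of degree `dim S` which is
regular on `S_p` for all primes `p` of height one (these forms are `ω_S`) is regular on every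
discrete valuation ring `V` of `Frac S` which contains `S`, in particular at every prime divisor of
`Y` (where `V` is the local ring of the divisor). -/
structure HasRationalSingularities (K : Type*) [Field K] (S : Type*) [CommRing S] [IsDomain S]
    [Algebra K S] : Prop where
  normal : IsIntegrallyClosed S
  kempf : ∀ d : ℕ, ringKrullDim S = d →
    ∀ ω : (Fin d → Derivation K (FractionRing S) (FractionRing S)) → FractionRing S,
    (∀ p : Ideal S, p.IsPrime → p.height = 1 → RegOn K (localAt p) ω) →
    ∀ V : ValuationSubring (FractionRing S), (∀ s : S, algebraMap S (FractionRing S) s ∈ V) →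
      IsDiscreteValuationRing V → RegOn K (V : Set (FractionRing S)) ω

end rational

end Pool.Agent.T9h22.Fin
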