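import Pool.Agent.T9h86.Core.Final
import Pool.Agent.T9h73.GorNA
import Pool.Agent.T9h22.RS.Final
import Pool.Agent.T9h82.NA.Jac
import Pool.Agent.T9h82.NA.Primary
import Pool.Agent.T9h22.Fin.Bridge

/-!
MP_954e53_ag.NegativeAnswer: assembly.
-/

namespace Pool.Agent.T9h22.Fin

open MvPolynomial Pool.Agent.T9h29.NA
open Pool.Agent.T9h22.RS (hasRationalSingularities_wG)

universe u

theorem primary_wG {K : Type u} [Field K] [CharZero K] [IsAlgClosed K]
    (M : ∀ b, Matrix (Fin (rk b)) (Crd b) K) (hM : ∀ b, AllMinors (M b)) :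
    ∃ n0, ∀ n, n0 ≤ n → ∃ j0, ∀ j, j0 ≤ j → grS M wG j ≤
      (Ideal.span (grS M wG n : Set (Stot M wG))).restrictScalars K := by
  obtain ⟨n0, h⟩ := Pool.Agent.T9h19.NA.supported
  refine ⟨n0, fun n hn => Pool.Agent.T9h82.NA.primary wG Pool.Agent.T9h19.NA.wG_three M hM
    (fun b => ?_) n (h n hn)⟩
  rw [Pool.Agent.T9h19.NA.card_Crd]
  omega

theorem grS_one {K : Type u} [Field K] (M : ∀ b, Matrix (Fin (rk b)) (Crd b) K) :
    grS M wG 1 = ⊥ := by
  rw [eq_bot_iff]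
  rintro x ⟨F, hF, hx⟩
  rw [Pool.Agent.T9h19.NA.good_one] at hF
  have hF0 : F = 0 := by
    rw [SetLike.mem_coe, mem_restrictSupport_iff, Set.subset_empty_iff, Finset.coe_eq_empty,
      support_eq_empty] at hF
    exact hF
  rw [Submodule.mem_bot]
  apply Subtype.ext
  have h1 : (x : Rg M) = Ideal.Quotient.mk (idl M) F := hx.symm
  rw [h1, hF0, map_zero]
  rfl

theorem grS_zero {K : Type u} [Field K] (M : ∀ b, Matrix (Fin (rk b)) (Crd b) K) :
    ∀ s ∈ grS M wG 0, ∃ c : K, algebraMap K (Stot M wG) c = s := by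
  rintro s ⟨F, hF, hs⟩
  have hF' : ∀ m ∈ F.support, m = 0 := by
    intro m hm
    have h1 : m ∈ Good wG 0 := hF hm
    ext ⟨b, c⟩
    have h2 : ∑ c, m ⟨b, c⟩ = 0 := h1.1 b
    exact (Finset.sum_eq_zero_iff.1 h2) c (Finset.mem_univ _)
  refine ⟨coeff 0 F, Subtype.ext ?_⟩
  have h1 : (s : Rg M) = Ideal.Quotient.mk (idl M) F := hs.symm
  have h2 : F = C (coeff 0 F) := by
    ext m
    rw [coeff_C]
    split_ifs with h
    · rw [h]
    · by_contra h3
      exact h (hF' m (mem_support_iff.2 h3)).symm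
  rw [h1, h2]
  simp only [coeff_C]
  rfl

open HomogeneousIdeal in
/-- The section ring property, in the form with homogeneous elements. -/
theorem isSectionRing_hom {K S : Type*} [Field K] [CommRing S] [Algebra K S]
    (𝒜 : ℕ → Submodule K S) [GradedAlgebra 𝒜] [IsDomain S]
    (h : Pool.Agent.T9h22.HS.IsSectionRing 𝒜) {d q : ℕ} (hq : 0 < q) (hd : 2 ≤ d)
    (θ : Fin d → S) (hθ : ∀ i, θ i ∈ 𝒜 q) {I : Type} [Fintype I] (b : I → S)
    (hfree : IsFreeBasis K θ b) : IsSectionRing 𝒜 := by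
  refine ⟨h.isDomain, h.finiteType, h.zero, ?_, ?_⟩
  · rintro p hp hhom ⟨i, hi, x, hx, hxp⟩
    obtain ⟨n, h1, h2⟩ := h.invertible p hp hhom
      fun hle => hxp (hle (mem_irrelevant_of_mem 𝒜 hi hx))
    obtain ⟨y, hy, hyp⟩ := Set.not_subset.1 h1
    obtain ⟨z, hz, hzp⟩ := Set.not_subset.1 h2
    exact ⟨n, ⟨y, hy, hyp⟩, z, hz, hzp⟩
  · intro n j a _ c _ hc h
    have h01 : (⟨0, by omega⟩ : Fin d) ≠ ⟨1, by omega⟩ := by simp
    obtain ⟨m, hm⟩ := h q hq _ (hθ ⟨0, by omega⟩)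
    obtain ⟨l, hl⟩ := h q hq _ (hθ ⟨1, by omega⟩)
    refine Pool.Agent.T9h22.HS.dvd_of_pair (x := θ ⟨0, by omega⟩) (y := θ ⟨1, by omega⟩) ?_
      (Pool.Agent.T9h22.HS.pair_of_free θ b hfree h01) hc hm hl
    intro h0
    have hinj := Pool.Agent.T9h22.HS.aeval_injective (K := K) θ b hfree
    have : (MvPolynomial.X ⟨0, by omega⟩ : MvPolynomial (Fin d) K) = 0 := by
      apply hinj
      simpa using h0
    exact MvPolynomial.X_ne_zero _ this

/-- **A negative answer.** -/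
theorem negative (K : Type u) [Field K] [IsAlgClosed K] [CharZero K] :
    ∃ (S : Type u) (_ : CommRing S) (_ : IsDomain S) (_ : Algebra K S)
      (𝒜 : ℕ → Submodule K S) (_ : GradedAlgebra 𝒜),
      IsSectionRing 𝒜 ∧ IsGorenstein 𝒜 ∧ HasRationalSingularities K S ∧
      ringKrullDim S = 1745 ∧ 𝒜 1 = ⊥ ∧
      ∃ N₀, ∀ N ≥ N₀, core (tail 𝒜 N) ≠ gradedCore 𝒜 (tail 𝒜 N) := by
  choose M hM using fun b => Pool.Agent.T9h82.NA.exists_allMinors (K := K) (rk b) (Crd b)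
  have hdom : IsDomain (Rg M) := Pool.Agent.T9h8.NA.isDomain_Rg M hM
    Pool.Agent.T9h19.NA.card_Crd Pool.Agent.T9h46.NA.one_le_rk
  have hdomS : IsDomain (Stot M wG) := inferInstance
  obtain ⟨gr⟩ := Pool.Agent.T9h46.NA.exists_graded wG Pool.Agent.T9h19.NA.wG_three M
  obtain ⟨θ, m, b, deg, hθ, hb, hfree, hle, htop, hno, hsymm⟩ :=
    Pool.Agent.T9h75.NA.free_wG M hM
  obtain ⟨n0, hprim⟩ := primary_wG M hM
  have h0 := grS_zero M
  have htop' := htop
  obtain ⟨i₀, hi₀, -⟩ := htop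
  refine ⟨Stot M wG, inferInstance, hdomS, inferInstance, grS M wG, gr, ?_, ?_, ?_, ?_, ?_, ?_⟩
  · exact isSectionRing_hom (grS M wG) (Pool.Agent.T9h22.HS.isSectionRing (grS M wG) h0
      (by norm_num) (by norm_num) θ hθ b hfree n0 (hprim n0 le_rfl) (hprim (n0 + 1) (by omega)))
      (by norm_num) (by norm_num) θ hθ b hfree
  · exact Pool.Agent.T9h73.Gor.isGorenstein_of_free (grS M wG) (by norm_num) θ hθ b deg hb hfree
      hle hsymm i₀ hi₀
  · exact hasRationalSingularities_of (hasRationalSingularities_wG M hM)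
      (Pool.Agent.T9h8.NA.exists_height_one_wG M hM)
  · exact Pool.Agent.T9h46.NA.dim_wG M hM
  · exact grS_one M
  · exact Pool.Agent.T9h86.NA.core_ne_gradedCore (grS M wG) h0 (by norm_num) (by norm_num) θ hθ b
      deg hb hfree hle htop' (hno trivial) ⟨n0, fun n hn => hprim n hn⟩

end Pool.Agent.T9h22.Fin
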